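import Pool.Agent.Y879.AP.ClassHer

set_option autoImplicit false

/-!
Almost all primes are regular in their residue class, for EVERY modulus `q ≤ x ^ (1 - δ)`: around all
primes `n` in `(q u, q (u + Y)]`, up to a small proportion, all windows of length at least a constant
times `φ(q) log Y` contain the right order of primes congruent to `n` modulo `q`, and at all but boundedly
many dyadic scales these primes have a constant density around `n`.
-/

namespace Pool.Agent.Results.MP_848d44_nt.RegularPrimesInClasses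

open Finset Filter
open Pool.Agent.Y879.AP (class_her)
open Pool.Agent.Y879.GL (Irr RO CD bS)
open Pool.Agent.TH977.PW (N)

open Classical in
/-- the number of the primes `p ≡ n (mod q)` with `n - q s < p ≤ n + q t` -/
noncomputable def PC (q n s t : ℕ) : ℕ :=
  ((Ioc (n - q * s) (n + q * t)).filter (fun p => p.Prime ∧ p ≡ n [MOD q])).card

/-- the windows around `n` contain the right order of primes `p ≡ n (mod q)` -/
def RightOrder (q n : ℕ) (L c : ℝ) (Y : ℕ) : Prop :=
  ∀ s t : ℕ, s ≤ Y → t ≤ Y → L ≤ c * (s + t) →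
    c * (s + t) / L ≤ PC q n s t ∧ (PC q n s t : ℝ) ≤ (s + t) / (c * L)

/-- up to `δ`, the primes `p ≡ n (mod q)` have a constant density around `n` up to the distance
`2 ^ j q` -/
def ConstantDensity (q n : ℕ) (L c δ : ℝ) (j : ℕ) : Prop :=
  ∃ lam : ℝ, c ≤ lam ∧ lam ≤ 1 / c ∧ ∀ s t : ℕ, s ≤ 2 ^ j → t ≤ 2 ^ j →
    |(PC q n s t : ℝ) - lam * (s + t) / L| ≤ δ * 2 ^ j / L

open Classical in
/-- the number of the scales `L ≤ 2 ^ j ≤ Y` without this property -/
noncomputable def badScales (q n : ℕ) (L c δ : ℝ) (Y : ℕ) : ℕ :=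
  ((range (Nat.log 2 Y + 1)).filter (fun j => L ≤ (2 : ℝ) ^ j ∧ ¬ ConstantDensity q n L c δ j)).card

/-- `n` is regular in its residue class modulo `q` -/
def Regular (q n : ℕ) (L c δ : ℝ) (B Y : ℕ) : Prop :=
  RightOrder q n L c Y ∧ badScales q n L c δ Y ≤ B

/-- the `m` such that `a + q m` is a prime larger than `Y` -/
def PA (a q Y : ℕ) : Set ℕ := {m | (a + q * m).Prime ∧ Y < a + q * m}

lemma PC_eq (a q Y u m s t : ℕ) (hq : 1 ≤ q) (huY : 2 * Y ≤ u) (hum : u ≤ m) (hs : s ≤ Y) :
    N (PA a q Y) (m - s) (m + t) = PC q (a + q * m) s t := by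
  classical
  have hsm : s ≤ m := by omega
  have e1 : a + q * m - q * s = a + q * (m - s) := by
    rw [Nat.mul_sub]
    have h1 : q * s ≤ q * m := Nat.mul_le_mul_left q hsm
    omega
  have e2 : a + q * m + q * t = a + q * (m + t) := by ring
  have hN : N (PA a q Y) (m - s) (m + t) = ((Ioc (m - s) (m + t)).filter (fun k => k ∈ PA a q Y)).card := by
    unfold N
    exact Pool.Agent.Y879.AP.card_iff _ _ (fun _ _ => Iff.rfl)
  have hP : PC q (a + q * m) s t = ((Ioc (a + q * (m - s)) (a + q * (m + t))).filter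
      (fun p => p.Prime ∧ p ≡ a + q * m [MOD q])).card := by
    unfold PC
    rw [e1, e2]
  rw [hN, hP]
  apply card_bij (fun k _ => a + q * k)
  · intro k hk
    rw [mem_filter, mem_Ioc] at hk ⊢
    obtain ⟨⟨hk1, hk2⟩, hk3, hk4⟩ := hk
    refine ⟨⟨?_, ?_⟩, hk3, ?_⟩
    · have := Nat.mul_lt_mul_of_pos_left hk1 (by omega : 0 < q)
      omega
    · have := Nat.mul_le_mul_left q hk2
      omega
    · show (a + q * k) % q = (a + q * m) % q
      rw [Nat.add_mul_mod_self_left, Nat.add_mul_mod_self_left]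
  · intro k _ k' _ h
    have h1 : q * k = q * k' := by omega
    exact Nat.eq_of_mul_eq_mul_left (by omega) h1
  · intro p hp
    rw [mem_filter, mem_Ioc] at hp
    obtain ⟨⟨hp1, hp2⟩, hp3, hp4⟩ := hp
    have hap : a ≤ p := by omega
    have hmod : a ≡ p [MOD q] := by
      have h1 : a % q = (a + q * m) % q := by rw [Nat.add_mul_mod_self_left]
      exact h1.trans hp4.symm
    obtain ⟨k, hk⟩ := (Nat.modEq_iff_dvd' hap).1 hmod
    have hpk : p = a + q * k := by omega
    rw [hpk] at hp1 hp2 hp3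
    have hk1 : m - s < k := by
      by_contra hcon
      rw [not_lt] at hcon
      have := Nat.mul_le_mul_left q hcon
      omega
    have hk2 : k ≤ m + t := by
      by_contra hcon
      rw [not_le] at hcon
      have := Nat.mul_lt_mul_of_pos_left hcon (by omega : 0 < q)
      omega
    refine ⟨k, ?_, hpk.symm⟩
    rw [mem_filter, mem_Ioc]
    refine ⟨⟨hk1, hk2⟩, hp3, ?_⟩
    have hkY : Y < k := by omega
    calc Y < k := hkY
      _ ≤ q * k := Nat.le_mul_of_pos_left k hq
      _ ≤ a + q * k := Nat.le_add_left _ _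

lemma irr_of (a q Y u m B : ℕ) (L c δ : ℝ) (hq : 1 ≤ q) (huY : 2 * Y ≤ u) (hum : u ≤ m) (hY : 1 ≤ Y)
    (hp : (a + q * m).Prime) (hreg : ¬ Regular q (a + q * m) L c δ B Y) :
    m ∈ Irr (PA a q Y) L c δ B Y := by
  classical
  refine ⟨⟨hp, ?_⟩, ?_⟩
  · have h1 : m ≤ q * m := Nat.le_mul_of_pos_left m hq
    omega
  · rintro ⟨h1, h2⟩
    apply hreg
    refine ⟨?_, ?_⟩
    · intro s t hs ht hL
      rw [← PC_eq a q Y u m s t hq huY hum hs]
      exact h1 s t hs ht hL
    · refine le_trans ?_ h2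
      unfold badScales bS
      apply card_le_card
      intro j hj
      rw [mem_filter, mem_range] at hj ⊢
      obtain ⟨hj1, hj2, hj3⟩ := hj
      refine ⟨hj1, hj2, fun hCD => hj3 ?_⟩
      have h2j : 2 ^ j ≤ Y := by
        have h3 : j ≤ Nat.log 2 Y := by omega
        exact (Nat.pow_le_pow_right (by norm_num) h3).trans (Nat.pow_log_le_self 2 (by omega))
      obtain ⟨lam, hl1, hl2, hl3⟩ := hCD
      refine ⟨lam, hl1, hl2, ?_⟩
      intro s t hs ht
      rw [← PC_eq a q Y u m s t hq huY hum (hs.trans h2j)]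
      exact hl3 s t hs ht

/-- the representative of the class of `n` in `[1, q]` -/
def rp (q n : ℕ) : ℕ := (n + q - 1) % q + 1

lemma rp_spec (q n a : ℕ) (hq : 1 ≤ q) (hn : 1 ≤ n) (h : n ≡ a [MOD q]) :
    n = rp q a + q * ((n - 1) / q) := by
  unfold rp
  have h1 : (a + q - 1) % q = (n - 1) % q := by
    have h2 : a + q - 1 ≡ n - 1 [MOD q] := by
      apply Nat.ModEq.add_right_cancel' 1
      rw [show a + q - 1 + 1 = a + q by omega, show n - 1 + 1 = n by omega]
      show (a + q) % q = n % q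
      rw [Nat.add_mod_right]
      exact h.symm
    exact h2
  rw [h1]
  have := Nat.mod_add_div (n - 1) q
  omega

lemma rp_coprime (q n a : ℕ) (hq : 1 ≤ q) (hn : 1 ≤ n) (h : n ≡ a [MOD q]) (hc : n.Coprime q) :
    (rp q a).Coprime q := by
  have h1 := rp_spec q n a hq hn h
  rw [h1] at hc
  have h7 : (rp q a + q * ((n - 1) / q)).Coprime q ↔ (rp q a).Coprime q := by simp
  exact h7.1 hc

open Classical in
/-- **Almost all primes are regular in their residue class, for every modulus and every class.** For all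
`K` and `ε > 0` there is `c > 0`, and for every `δ > 0` there are `B` and `Y₀`, such that for all
`Y ≥ Y₀`, EVERY modulus `q ≤ Y ^ K` and all `u ≥ 2 Y`, with `L = (φ(q) / q) log Y`: for EVERY `a` all
primes `n ≡ a (mod q)` in `(q u, q (u + Y)]` up to at most `ε Y / L`, and all primes `n` in
`(q u, q (u + Y)]` up to at most `ε q Y / log Y`, are regular:

(1) for all `s, t ≤ Y` with `c (s + t) ≥ L` the number of the primes `p ≡ n (mod q)` in
`(n - q s, n + q t]` lies between `c (s + t) / L` and `(s + t) / (c L)`;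

(2) for all but at most `B` of the scales `L ≤ 2 ^ j ≤ Y` there is `lam` in `[c, 1 / c]` such that for
all `s, t ≤ 2 ^ j` this number differs from `lam (s + t) / L` by at most `δ 2 ^ j / L`. -/
theorem result (K : ℕ) (ε : ℝ) (hε : 0 < ε) : ∃ c : ℝ, 0 < c ∧ ∀ δ : ℝ, 0 < δ → ∃ B Y₀ : ℕ,
    ∀ Y : ℕ, Y₀ ≤ Y → ∀ q : ℕ, 1 ≤ q → q ≤ Y ^ K → ∀ u : ℕ, 2 * Y ≤ u →
      (∀ a : ℕ, (((Ioc (q * u) (q * (u + Y))).filter (fun n => n.Prime ∧ n ≡ a [MOD q] ∧
        ¬ Regular q n ((q.totient : ℝ) / q * Real.log Y) c δ B Y)).card : ℝ) ≤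
        ε * (Y / ((q.totient : ℝ) / q * Real.log Y))) ∧
      (((Ioc (q * u) (q * (u + Y))).filter (fun n => n.Prime ∧
        ¬ Regular q n ((q.totient : ℝ) / q * Real.log Y) c δ B Y)).card : ℝ) ≤
        ε * (q * Y / Real.log Y) := by
  obtain ⟨r, hr2, h⟩ := class_her
  obtain ⟨c, hc, h2⟩ := h K ε hε
  refine ⟨c, hc, ?_⟩
  intro δ hδ
  obtain ⟨B, h3⟩ := h2 δ hδ
  obtain ⟨Y1, hY1⟩ := eventually_atTop.1 h3
  refine ⟨B, max Y1 3, ?_⟩
  intro Y hY q hq hqY u hu
  have hY3 : 3 ≤ Y := (le_max_right _ _).trans hY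
  have hY1r : (1 : ℝ) < Y := by exact_mod_cast (by omega : 1 < Y)
  have hlY : 0 < Real.log Y := Real.log_pos hY1r
  have hq0 : (0 : ℝ) < q := by exact_mod_cast hq
  have hrr : (2 : ℝ) ≤ r := by exact_mod_cast hr2
  have hzY : ⌊(Y : ℝ) ^ (1 / (r : ℝ))⌋₊ ≤ Y := by
    have h4 : (Y : ℝ) ^ (1 / (r : ℝ)) ≤ (Y : ℝ) ^ (1 : ℝ) := by
      apply Real.rpow_le_rpow_of_exponent_le hY1r.le
      rw [div_le_one (by linarith)]
      linarith
    rw [Real.rpow_one] at h4
    calc ⌊(Y : ℝ) ^ (1 / (r : ℝ))⌋₊ ≤ ⌊(Y : ℝ)⌋₊ := Nat.floor_le_floor h4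
      _ = Y := Nat.floor_natCast Y
  obtain ⟨L, hL⟩ : ∃ L, L = (q.totient : ℝ) / q * Real.log Y := ⟨_, rfl⟩
  have hφ : 0 < (q.totient : ℝ) := by exact_mod_cast Nat.totient_pos.2 hq
  have hL0 : 0 < L := by rw [hL]; positivity
  have hclass : ∀ a : ℕ, a.Coprime q →
      (((Ioc (u - 1) (u - 1 + Y)).filter (fun m => m ∈ Irr (PA a q Y) L c δ B Y)).card : ℝ) ≤
        ε * Y / L := by
    intro a ha
    have h5 := hY1 Y ((le_max_left _ _).trans hY) q hq hqY a ha (u - 1) (by omega) (PA a q Y)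
      (by
        rintro m ⟨hm1, hm2⟩ p hp hpz hd
        have h6 := (Nat.prime_dvd_prime_iff_eq hp hm1).1 hd
        omega)
    rw [← hL] at h5
    refine le_trans (le_of_eq ?_) h5
    unfold N
    congr 1
  rw [← hL]
  have hone : ∀ a : ℕ, (((Ioc (q * u) (q * (u + Y))).filter (fun n => n.Prime ∧ n ≡ a [MOD q] ∧
        ¬ Regular q n L c δ B Y)).card : ℝ) ≤ ε * (Y / L) := by
    intro a
    by_cases hcop : (rp q a).Coprime q
    · have hsub : (Ioc (q * u) (q * (u + Y))).filter (fun n => n.Prime ∧ n ≡ a [MOD q] ∧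
            ¬ Regular q n L c δ B Y) ⊆
          ((Ioc (u - 1) (u - 1 + Y)).filter (fun m => m ∈ Irr (PA (rp q a) q Y) L c δ B Y)).image
            (fun m => rp q a + q * m) := by
        intro n hn
        rw [mem_filter, mem_Ioc] at hn
        obtain ⟨⟨hn1, hn2⟩, hn3, hn5, hn4⟩ := hn
        have hn0 : 1 ≤ n := hn3.one_lt.le
        have hna := rp_spec q n a hq hn0 hn5
        obtain ⟨m, hm⟩ : ∃ m, m = (n - 1) / q := ⟨_, rfl⟩
        rw [← hm] at hna
        have hum : u ≤ m := by
          rw [hm, Nat.le_div_iff_mul_le (by omega), mul_comm]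
          omega
        have hmu : m < u + Y := by
          rw [hm, Nat.div_lt_iff_lt_mul (by omega), mul_comm]
          omega
        rw [mem_image]
        refine ⟨m, ?_, hna.symm⟩
        rw [mem_filter, mem_Ioc]
        refine ⟨⟨by omega, by omega⟩, ?_⟩
        rw [hna] at hn3 hn4
        exact irr_of (rp q a) q Y u m B L c δ hq hu hum (by omega) hn3 hn4
      have h8 : (((Ioc (q * u) (q * (u + Y))).filter (fun n => n.Prime ∧ n ≡ a [MOD q] ∧
            ¬ Regular q n L c δ B Y)).card : ℝ) ≤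
          (((Ioc (u - 1) (u - 1 + Y)).filter (fun m => m ∈ Irr (PA (rp q a) q Y) L c δ B Y)).card : ℝ) := by
        exact_mod_cast (card_le_card hsub).trans card_image_le
      refine h8.trans ((hclass _ hcop).trans (le_of_eq ?_))
      ring
    · have hemp : (Ioc (q * u) (q * (u + Y))).filter (fun n => n.Prime ∧ n ≡ a [MOD q] ∧
            ¬ Regular q n L c δ B Y) = ∅ := by
        rw [Finset.filter_eq_empty_iff]
        rintro n hn ⟨hn3, hn5, _⟩
        rw [mem_Ioc] at hn
        have hqn : q < n := by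
          calc q = q * 1 := (mul_one q).symm
            _ ≤ q * u := Nat.mul_le_mul_left q (by omega)
            _ < n := hn.1
        have hcopn : n.Coprime q := by
          rw [Nat.Prime.coprime_iff_not_dvd hn3]
          intro h6
          have := Nat.le_of_dvd (by omega) h6
          omega
        exact hcop (rp_coprime q n a hq hn3.one_lt.le hn5 hcopn)
      rw [hemp, card_empty]
      push_cast
      positivity
  refine ⟨hone, ?_⟩
  have hsub : (Ioc (q * u) (q * (u + Y))).filter (fun n => n.Prime ∧ ¬ Regular q n L c δ B Y) ⊆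
      ((range q).filter (fun a => q.Coprime a)).biUnion (fun a =>
        (Ioc (q * u) (q * (u + Y))).filter (fun n => n.Prime ∧ n ≡ a [MOD q] ∧
          ¬ Regular q n L c δ B Y)) := by
    intro n hn
    rw [mem_filter] at hn
    obtain ⟨hn1, hn3, hn4⟩ := hn
    have hn1' := mem_Ioc.1 hn1
    have hqn : q < n := by
      calc q = q * 1 := (mul_one q).symm
        _ ≤ q * u := Nat.mul_le_mul_left q (by omega)
        _ < n := hn1'.1
    have hcopn : q.Coprime n := by
      rw [Nat.coprime_comm, Nat.Prime.coprime_iff_not_dvd hn3]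
      intro h6
      have := Nat.le_of_dvd (by omega) h6
      omega
    rw [mem_biUnion]
    refine ⟨n % q, mem_filter.2 ⟨mem_range.2 (Nat.mod_lt _ (by omega)), ?_⟩, ?_⟩
    · unfold Nat.Coprime at hcopn ⊢
      rw [Nat.gcd_comm, ← Nat.gcd_rec]
      exact hcopn
    · rw [mem_filter]
      exact ⟨hn1, hn3, (Nat.mod_modEq n q).symm, hn4⟩
  calc (((Ioc (q * u) (q * (u + Y))).filter (fun n => n.Prime ∧ ¬ Regular q n L c δ B Y)).card : ℝ) ≤
      ((((range q).filter (fun a => q.Coprime a)).biUnion (fun a =>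
        (Ioc (q * u) (q * (u + Y))).filter (fun n => n.Prime ∧ n ≡ a [MOD q] ∧
          ¬ Regular q n L c δ B Y))).card : ℝ) := by exact_mod_cast card_le_card hsub
    _ ≤ ∑ a ∈ (range q).filter (fun a => q.Coprime a),
        (((Ioc (q * u) (q * (u + Y))).filter (fun n => n.Prime ∧ n ≡ a [MOD q] ∧
          ¬ Regular q n L c δ B Y)).card : ℝ) := by exact_mod_cast card_biUnion_le
    _ ≤ ∑ a ∈ (range q).filter (fun a => q.Coprime a), ε * (Y / L) := by
        apply Finset.sum_le_sum
        intro a ha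
        exact hone a
    _ = q.totient * (ε * (Y / L)) := by
        rw [Finset.sum_const, nsmul_eq_mul, Nat.totient_eq_card_coprime]
    _ = ε * (q * Y / Real.log Y) := by
        rw [hL]
        field_simp

end Pool.Agent.Results.MP_848d44_nt.RegularPrimesInClasses
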