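import Pool.Agent.Y816.PD.UniB

set_option autoImplicit false

/-!
# Almost primes `n ≤ x`, `n ≡ a` modulo `q`, with restricted digits of `(n - a) / q`, for all `q ≤ x ^ (1 - 1 / D)`

The numbers `a + q j`, `j < b ^ K`, are considered, where the `i`-th digit of `j` in base `b` belongs to an arbitrary
set `A i` for all `i < K`; `K` is the integer part of `log_b ((x - a) / q)`.
-/

namespace Pool.Agent.Results.MP_848d44_nt.RestrictedDigits

open Finset Filter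
open Pool.Agent.Y816.PD (NA ND AA)

/-- **Almost primes with restricted digits in progressions with moduli up to `x ^ (1 - 1 / D)`.** -/
theorem result (D : ℕ) :
    ∃ c : ℝ, 0 < c ∧ ∃ r₀ : ℕ, 2 ≤ r₀ ∧ ∀ r : ℕ, r₀ ≤ r → ∀ b : ℕ, 2 ≤ b → ∃ κ C : ℝ, 0 < κ ∧ 0 < C ∧
      ∀ᶠ x : ℕ in atTop, ∀ q a : ℕ, 1 ≤ q → q ^ D * x ≤ x ^ D → a < q → a.Coprime q →
        ∀ K : ℕ, K = Nat.log b ((x - a) / q) →
        ∀ A : ℕ → Finset ℕ, (∀ i < K, A i ⊆ range b) → (b : ℝ) ^ K ≤ Real.exp (c * K) * NA K A →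
        ((∃ d ∈ A 0, (a + q * d).Coprime b) →
          κ * ((q : ℝ) / Nat.totient q) * NA K A / K ≤ ND b K A {j | a + q * j ≤ x ∧ j ∈ AA q a r (b ^ K)}) ∧
        (ND b K A {j | (a + q * j).Prime} : ℝ) ≤ C * ((q : ℝ) / Nat.totient q) * NA K A / K := by
  obtain ⟨c, hc, r₀, hr₀, h⟩ := Pool.Agent.Y816.PD.uni_ap (3 * D)
  refine ⟨c, hc, r₀, hr₀, fun r hr b hb => ?_⟩
  obtain ⟨κ, C, hκ, hC, h1⟩ := h r hr b hb
  refine ⟨κ, C, hκ, hC, ?_⟩
  obtain ⟨K0, hK0⟩ := eventually_atTop.1 h1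
  have hb0 : 0 < b := by omega
  filter_upwards [eventually_ge_atTop ((b ^ (K0 + 3)) ^ D + 1)] with x hx q a hq hqx haq hcop K hK A hA hprod
  have hx1 : 1 ≤ x := by omega
  have hqlx : q ≤ x := by
    by_contra hcon
    push Not at hcon
    have h2 : x ^ D ≤ q ^ D := Nat.pow_le_pow_left hcon.le D
    have h3 : 0 < q ^ D := by positivity
    have h4 : q ^ D * x ≤ q ^ D := hqx.trans h2
    have h5 : x ≤ 1 := by
      by_contra h6
      push Not at h6
      nlinarith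
    have h6 : 1 ≤ (b ^ (K0 + 3)) ^ D := Nat.one_le_pow _ _ (by positivity)
    omega
  have hqpos : 0 < q := hq
  have hdiv : x ≤ q * ((x - a) / q + 2) := by
    have h2 := Nat.lt_mul_div_succ (x - a) hqpos
    have h3 : q * ((x - a) / q + 2) = q * ((x - a) / q + 1) + q := by ring
    omega
  have hbig : b ^ (K0 + 3) < (x - a) / q + 2 := by
    by_contra hcon
    push Not at hcon
    have h2 : x ≤ q * b ^ (K0 + 3) := hdiv.trans (Nat.mul_le_mul_left _ hcon)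
    have h3 : q ^ D * x ≤ q ^ D * (b ^ (K0 + 3)) ^ D := by
      calc q ^ D * x ≤ x ^ D := hqx
        _ ≤ (q * b ^ (K0 + 3)) ^ D := Nat.pow_le_pow_left h2 D
        _ = _ := mul_pow _ _ _
    have h4 : x ≤ (b ^ (K0 + 3)) ^ D := Nat.le_of_mul_le_mul_left h3 (by positivity)
    omega
  have hy : b ^ (K0 + 2) ≤ (x - a) / q := by
    have h2 : b ^ (K0 + 3) = b * b ^ (K0 + 2) := by ring
    have h3 : 2 * b ^ (K0 + 2) ≤ b * b ^ (K0 + 2) := Nat.mul_le_mul_right _ hb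
    have h4 : 4 ≤ b ^ (K0 + 2) := by
      calc 4 = 2 ^ 2 := by norm_num
        _ ≤ b ^ 2 := Nat.pow_le_pow_left hb 2
        _ ≤ b ^ (K0 + 2) := Nat.pow_le_pow_right hb0 (by omega)
    omega
  have hKK : K0 + 2 ≤ K := by
    rw [hK]
    exact Nat.le_log_of_pow_le (by omega) hy
  have hy0 : (x - a) / q ≠ 0 := by
    have h2 : 0 < b ^ (K0 + 2) := by positivity
    omega
  have hb1 : b ^ K ≤ (x - a) / q := by
    rw [hK]
    exact Nat.pow_log_le_self _ hy0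
  have hb2 : (x - a) / q < b ^ (K + 1) := by
    rw [hK]
    exact Nat.lt_pow_succ_log_self (by omega) _
  have hb3 : (x - a) / q + 2 ≤ b ^ (K + 2) := by
    have h2 : b ^ (K + 2) = b * b ^ (K + 1) := by ring
    have h3 : 2 * b ^ (K + 1) ≤ b * b ^ (K + 1) := Nat.mul_le_mul_right _ hb
    have h4 : 2 ≤ b ^ (K + 1) := hb.trans (Nat.le_self_pow (by omega) b)
    omega
  have e1 : x ≤ b ^ (3 * D * K) := by
    have h2 : q ^ D * x ≤ q ^ D * (b ^ (K + 2)) ^ D := by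
      calc q ^ D * x ≤ x ^ D := hqx
        _ ≤ (q * b ^ (K + 2)) ^ D := Nat.pow_le_pow_left (hdiv.trans (Nat.mul_le_mul_left _ hb3)) D
        _ = _ := mul_pow _ _ _
    have h4 : x ≤ (b ^ (K + 2)) ^ D := Nat.le_of_mul_le_mul_left h2 (by positivity)
    calc x ≤ (b ^ (K + 2)) ^ D := h4
      _ = b ^ ((K + 2) * D) := (pow_mul _ _ _).symm
      _ ≤ b ^ (3 * D * K) := Nat.pow_le_pow_right hb0 (by nlinarith [Nat.mul_le_mul_left D (by omega : K + 2 ≤ 3 * K)])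
  obtain ⟨h2, h3⟩ := hK0 K (by omega) q a hq (hqlx.trans e1) ((haq.le.trans hqlx).trans e1) hcop A hA hprod
  refine ⟨fun hd => (h2 hd).trans (Nat.cast_le.2 ?_), h3⟩
  apply Pool.Agent.Y816.PD.ND_mono'
  intro j hj hjS
  refine ⟨?_, hjS⟩
  have h4 : q * j ≤ x - a := by
    calc q * j ≤ q * ((x - a) / q) := Nat.mul_le_mul_left _ (by omega)
      _ ≤ x - a := Nat.mul_div_le _ _
  have h5 : a ≤ x := by omega
  omega

end Pool.Agent.Results.MP_848d44_nt.RestrictedDigits
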